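import Mathlib

/-!
# The pointwise distance distribution is not complete for planar clouds

Take `ω = exp (2πi/12)`.  The 10-point clouds
`C  = 2·{ω^0, ω^1, ω^6, ω^7} ∪ 4·{ω^0, ω^1, ω^4, ω^5, ω^8, ω^9}` and
`C' = 2·{ω^1, ω^2, ω^7, ω^8} ∪ 4·{ω^0, ω^1, ω^4, ω^5, ω^8, ω^9}`
have the same pointwise distance distribution but are not isometric.
-/

namespace Pool.Agent.Results.MP_8766ea_co.PlanarPDDIncomplete

/-- The Euclidean plane. -/
abbrev Plane : Type := EuclideanSpace ℝ (Fin 2)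

/-- The row of `p` in the cloud `C`: the list of the distances from `p` to the other points
of `C`, in non-decreasing order. -/
noncomputable def row (C : Finset Plane) (p : Plane) : List ℝ :=
  ((C.erase p).val.map (fun q => dist p q)).sort (· ≤ ·)

/-- The pointwise distance distribution of the cloud `C`: the multiset of its rows. -/
noncomputable def PDD (C : Finset Plane) : Multiset (List ℝ) :=
  C.val.map (row C)

/-- Two clouds are isometric if some isometry of the plane maps the first onto the second. -/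
def IsometricClouds (C C' : Finset Plane) : Prop :=
  ∃ f : Plane → Plane, Isometry f ∧ f '' (C : Set Plane) = (C' : Set Plane)

/-! ### Integer coordinates -/

/-- Integer coordinates `(a, b, c, d)` for the point `(a + b√3, c + d√3)`. -/
abbrev Z4 : Type := ℤ × ℤ × ℤ × ℤ

/-- The point of the plane with given integer coordinates. -/
noncomputable def pt (u : Z4) : Plane :=
  !₂[(u.1 : ℝ) + (u.2.1 : ℝ) * √3, (u.2.2.1 : ℝ) + (u.2.2.2 : ℝ) * √3]

/-- The squared distance of two points, as the pair `(P, Q)` standing for `P + Q√3`. -/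
def nrm (u v : Z4) : ℤ × ℤ :=
  ((u.1 - v.1) ^ 2 + 3 * (u.2.1 - v.2.1) ^ 2 + (u.2.2.1 - v.2.2.1) ^ 2
      + 3 * (u.2.2.2 - v.2.2.2) ^ 2,
    2 * ((u.1 - v.1) * (u.2.1 - v.2.1) + (u.2.2.1 - v.2.2.1) * (u.2.2.2 - v.2.2.2)))

/-- The real number `√(P + Q√3)`. -/
noncomputable def g (t : ℤ × ℤ) : ℝ := √((t.1 : ℝ) + (t.2 : ℝ) * √3)

lemma sq3 : √3 * √3 = (3 : ℝ) := Real.mul_self_sqrt (by norm_num)

lemma inner_eq (u v : Z4) :
    ((nrm u v).1 : ℝ) + ((nrm u v).2 : ℝ) * √3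
      = (((u.1 : ℝ) + (u.2.1 : ℝ) * √3) - ((v.1 : ℝ) + (v.2.1 : ℝ) * √3)) ^ 2
        + (((u.2.2.1 : ℝ) + (u.2.2.2 : ℝ) * √3) - ((v.2.2.1 : ℝ) + (v.2.2.2 : ℝ) * √3)) ^ 2 := by
  have h := sq3
  simp only [nrm]
  push_cast
  linear_combination (-((u.2.1 : ℝ) - v.2.1) ^ 2 - ((u.2.2.2 : ℝ) - v.2.2.2) ^ 2) * h

lemma dist_pt (u v : Z4) : dist (pt u) (pt v) = g (nrm u v) := by
  rw [EuclideanSpace.dist_eq, g, inner_eq]
  congr 1
  simp [pt, Fin.sum_univ_two, Real.dist_eq, sq_abs]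

lemma indep {P Q P' Q' : ℤ} (h : (P : ℝ) + (Q : ℝ) * √3 = (P' : ℝ) + (Q' : ℝ) * √3) :
    P = P' ∧ Q = Q' := by
  have hirr : Irrational (√3 : ℝ) := by
    have := Nat.Prime.irrational_sqrt (p := 3) (by norm_num)
    simpa using this
  have hQ : Q = Q' := by
    by_contra hne
    have hne' : ((Q' - Q : ℤ) : ℝ) ≠ 0 := by
      exact_mod_cast sub_ne_zero.mpr (fun h => hne h.symm)
    apply hirr
    refine ⟨((P - P' : ℤ) : ℚ) / ((Q' - Q : ℤ) : ℚ), ?_⟩
    push_cast at hne' ⊢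
    rw [div_eq_iff hne']
    linear_combination h
  subst hQ
  refine ⟨?_, rfl⟩
  have : (P : ℝ) = (P' : ℝ) := by linear_combination h
  exact_mod_cast this

lemma nrm_eq_of_dist_eq {u v u' v' : Z4} (h : dist (pt u) (pt v) = dist (pt u') (pt v')) :
    nrm u v = nrm u' v' := by
  rw [dist_pt, dist_pt, g, g] at h
  have h1 : (0 : ℝ) ≤ ((nrm u v).1 : ℝ) + ((nrm u v).2 : ℝ) * √3 := by
    rw [inner_eq]; positivity
  have h2 : (0 : ℝ) ≤ ((nrm u' v').1 : ℝ) + ((nrm u' v').2 : ℝ) * √3 := by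
    rw [inner_eq]; positivity
  have h3 := (Real.sqrt_inj h1 h2).1 h
  exact Prod.ext (indep h3).1 (indep h3).2

lemma pt_injective : Function.Injective pt := by
  intro u v h
  have h0 := congrFun (congrArg (fun w : Plane => (w : Fin 2 → ℝ)) h) 0
  have h1 := congrFun (congrArg (fun w : Plane => (w : Fin 2 → ℝ)) h) 1
  simp only [pt, PiLp.toLp_apply, Matrix.cons_val_zero, Matrix.cons_val_one] at h0 h1
  obtain ⟨a, b⟩ := indep h0
  obtain ⟨c, d⟩ := indep h1
  exact Prod.ext a (Prod.ext b (Prod.ext c d))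

/-- The cloud with given integer coordinates. -/
noncomputable def cloud (S : Finset Z4) : Finset Plane := S.map ⟨pt, pt_injective⟩

/-- The combinatorial distance distribution. -/
def combPDD (S : Finset Z4) : Multiset (Multiset (ℤ × ℤ)) :=
  S.val.map (fun u => (S.erase u).val.map (fun v => nrm u v))

lemma PDD_cloud (S : Finset Z4) :
    PDD (cloud S) = (combPDD S).map (fun m => (m.map g).sort (· ≤ ·)) := by
  unfold PDD combPDD
  rw [cloud, Finset.map_val, Multiset.map_map, Multiset.map_map]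
  apply Multiset.map_congr rfl
  intro u _
  simp only [Function.comp_apply, row, Function.Embedding.coeFn_mk]
  congr 1
  have : (Finset.map ⟨pt, pt_injective⟩ S).erase (pt u)
      = (S.erase u).map ⟨pt, pt_injective⟩ := by
    rw [Finset.map_erase]; rfl
  rw [this, Finset.map_val, Multiset.map_map, Multiset.map_map]
  apply Multiset.map_congr rfl
  intro v _
  simp [dist_pt]

/-- Integer coordinates of the first cloud. -/
def S₁ : Finset Z4 :=
  {(2, 0, 0, 0), (0, 1, 1, 0), (-2, 0, 0, 0), (0, -1, -1, 0),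
   (4, 0, 0, 0), (0, 2, 2, 0), (-2, 0, 0, 2), (0, -2, 2, 0), (-2, 0, 0, -2), (0, 0, -4, 0)}

/-- Integer coordinates of the second cloud. -/
def S₂ : Finset Z4 :=
  {(0, 1, 1, 0), (1, 0, 0, 1), (0, -1, -1, 0), (-1, 0, 0, -1),
   (4, 0, 0, 0), (0, 2, 2, 0), (-2, 0, 0, 2), (0, -2, 2, 0), (-2, 0, 0, -2), (0, 0, -4, 0)}

lemma combPDD_eq : combPDD S₁ = combPDD S₂ := by
  decide +kernel

lemma no_map : ∀ a ∈ S₂, ∀ b ∈ S₂, nrm (2, 0, 0, 0) (0, 1, 1, 0) = nrm a b →
    ∀ c ∈ S₂, nrm (2, 0, 0, 0) (4, 0, 0, 0) = nrm a c →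
    ∀ d ∈ S₂, nrm (0, 1, 1, 0) (0, 2, 2, 0) = nrm b d → False := by
  decide +kernel

theorem result : ∃ C C' : Finset Plane, C.card = 10 ∧ C'.card = 10 ∧
    PDD C = PDD C' ∧ ¬ IsometricClouds C C' := by
  refine ⟨cloud S₁, cloud S₂, ?_, ?_, ?_, ?_⟩
  · rw [cloud, Finset.card_map]; decide +kernel
  · rw [cloud, Finset.card_map]; decide +kernel
  · rw [PDD_cloud, PDD_cloud, combPDD_eq]
  · rintro ⟨f, hf, him⟩
    have key : ∀ u ∈ S₁, ∃ v ∈ S₂, f (pt u) = pt v := by
      intro u hu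
      have h1 : f (pt u) ∈ f '' (cloud S₁ : Set Plane) :=
        ⟨pt u, by simp only [cloud, Finset.coe_map, Function.Embedding.coeFn_mk]
                  exact ⟨u, hu, rfl⟩, rfl⟩
      rw [him] at h1
      simp only [cloud, Finset.coe_map, Function.Embedding.coeFn_mk] at h1
      obtain ⟨v, hv, hv'⟩ := h1
      exact ⟨v, hv, hv'.symm⟩
    obtain ⟨a, ha, ha'⟩ := key (2, 0, 0, 0) (by decide)
    obtain ⟨b, hb, hb'⟩ := key (0, 1, 1, 0) (by decide)
    obtain ⟨c, hc, hc'⟩ := key (4, 0, 0, 0) (by decide)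
    obtain ⟨d, hd, hd'⟩ := key (0, 2, 2, 0) (by decide)
    refine no_map a ha b hb ?_ c hc ?_ d hd ?_
    · apply nrm_eq_of_dist_eq
      rw [← ha', ← hb', hf.dist_eq]
    · apply nrm_eq_of_dist_eq
      rw [← ha', ← hc', hf.dist_eq]
    · apply nrm_eq_of_dist_eq
      rw [← hb', ← hd', hf.dist_eq]

end Pool.Agent.Results.MP_8766ea_co.PlanarPDDIncomplete
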